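import Pool.Agent.Q102.DA.Fam0

/-!
# Project DA, job FAM: the counting
-/

namespace Q165.DA.Fam
open Equiv

theorem finS (n : ℕ) : (S n).Finite := (finite_supp n).subset (fun _ h => h.1)

theorem finI (n : ℕ) : (I n).Finite := (finite_supp n).subset (fun _ h => h.1)

theorem avsq_inv {π : Perm ℕ} (h : Av (π * π)) : Av (π⁻¹ * π⁻¹) := by
  have := h.inv
  rwa [mul_inv_rev] at this

theorem inv_mem_S {n : ℕ} {π : Perm ℕ} (h : π ∈ S n) : π⁻¹ ∈ S n :=
  ⟨h.1.inv, h.2.1.inv, avsq_inv h.2.2⟩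

open Classical in
/-- the map of (2), extended by the identity. -/
noncomputable def e2 (n : ℕ) (hn : 3 ≤ n) (σ : Perm ℕ) : Perm ℕ :=
  if hs : Supp (n - 3) σ then p2 n hn σ hs else σ

open Classical in
/-- the map of (4), extended by the identity. -/
noncomputable def e4 (n : ℕ) (hn : 6 ≤ n) (σ : Perm ℕ) : Perm ℕ :=
  if hs : Supp (n - 6) σ then p4 n hn σ hs else σ

theorem e2_mem {n : ℕ} (hn : 3 ≤ n) {σ : Perm ℕ} (h : σ ∈ S (n - 3)) : e2 n hn σ ∈ S n := by
  unfold e2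
  rw [dif_pos h.1]
  exact ⟨supp_p2 hn h.1, av_p2 hn h.1 h.2.1, av_p2sq hn h.1 h.2.2⟩

theorem e4_mem {n : ℕ} (hn : 6 ≤ n) {σ : Perm ℕ} (h : σ ∈ S (n - 6)) : e4 n hn σ ∈ S n := by
  unfold e4
  rw [dif_pos h.1]
  exact ⟨supp_p4 hn h.1, av_p4 hn h.1 h.2.1, av_p4sq hn h.1 h.2.2⟩

theorem e2_inj {n : ℕ} (hn : 3 ≤ n) : Set.InjOn (e2 n hn) (S (n - 3)) := by
  intro σ h τ h' he
  unfold e2 at he
  rw [dif_pos h.1, dif_pos h'.1] at he
  exact p2_inj hn h.1 h'.1 he

theorem e4_inj {n : ℕ} (hn : 6 ≤ n) : Set.InjOn (e4 n hn) (S (n - 6)) := by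
  intro σ h τ h' he
  unfold e4 at he
  rw [dif_pos h.1, dif_pos h'.1] at he
  exact p4_inj hn h.1 h'.1 he

theorem e2_last {n : ℕ} (hn : 3 ≤ n) {σ : Perm ℕ} (h : σ ∈ S (n - 3)) :
    e2 n hn σ (n - 1) = 0 ∧ e2 n hn σ (n - 2) = n - 1 := by
  unfold e2
  rw [dif_pos h.1]
  constructor
  · change f2 n σ (n - 1) = 0
    unfold f2
    rw [if_neg (by omega), if_neg (by omega), if_neg (by omega), if_pos rfl]
  · change f2 n σ (n - 2) = n - 1
    unfold f2
    rw [if_neg (by omega), if_neg (by omega), if_pos rfl]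

theorem e4_last {n : ℕ} (hn : 6 ≤ n) {σ : Perm ℕ} (h : σ ∈ S (n - 6)) :
    e4 n hn σ (n - 1) = 1 ∧ e4 n hn σ (n - 3) = n - 1 := by
  unfold e4
  rw [dif_pos h.1]
  constructor
  · change f4 n σ (n - 1) = 1
    unfold f4
    rw [if_neg (by omega), if_neg (by omega), if_neg (by omega), if_neg (by omega),
      if_neg (by omega), if_neg (by omega), if_pos rfl]
  · change f4 n σ (n - 3) = n - 1
    unfold f4
    rw [if_neg (by omega), if_neg (by omega), if_neg (by omega), if_neg (by omega), if_pos rfl]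

theorem fam : S_Fam := by
  intro n hn
  have hn3 : 3 ≤ n := by omega
  set X0 := S (n - 1) with hX0
  set X2 := (e2 n hn3) '' S (n - 3) with hX2
  set X3 := (fun π : Perm ℕ => π⁻¹) '' X2 with hX3
  set X4 := (e4 n hn) '' S (n - 6) with hX4
  set X1 := I n \ I (n - 1) with hX1
  -- the values at the last position and of the inverse
  have k0 : ∀ π ∈ X0, π (n - 1) = n - 1 := fun π h => h.1 _ le_rfl
  have k1 : ∀ π ∈ X1, π (n - 1) ≠ n - 1 ∧ π⁻¹ (n - 1) = π (n - 1) := by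
    rintro π ⟨h, h'⟩
    refine ⟨fun e => h' ⟨h.1.pred e, h.2⟩, ?_⟩
    rw [inv_eq_of_mul_eq_one_right h.2.2]
  have k2 : ∀ π ∈ X2, π (n - 1) = 0 ∧ π⁻¹ (n - 1) = n - 2 := by
    rintro _ ⟨σ, h, rfl⟩
    obtain ⟨h1, h2⟩ := e2_last hn3 h
    exact ⟨h1, by rw [Perm.inv_eq_iff_eq, h2]⟩
  have k3 : ∀ π ∈ X3, π (n - 1) = n - 2 ∧ π⁻¹ (n - 1) = 0 := by
    rintro _ ⟨σ, h, rfl⟩
    obtain ⟨h1, h2⟩ := k2 σ h
    exact ⟨h2, by simpa using h1⟩
  have k4 : ∀ π ∈ X4, π (n - 1) = 1 ∧ π⁻¹ (n - 1) = n - 3 := by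
    rintro _ ⟨σ, h, rfl⟩
    obtain ⟨h1, h2⟩ := e4_last hn h
    exact ⟨h1, by rw [Perm.inv_eq_iff_eq, h2]⟩
  -- subsets
  have s0 : X0 ⊆ S n := fun π h => ⟨h.1.mono (by omega), h.2⟩
  have s1 : X1 ⊆ S n := fun π h => ⟨h.1.1, h.1.2.1, by rw [h.1.2.2]; exact Av.one⟩
  have s2 : X2 ⊆ S n := by
    rintro _ ⟨σ, h, rfl⟩
    exact e2_mem hn3 h
  have s3 : X3 ⊆ S n := by
    rintro _ ⟨σ, h, rfl⟩
    exact inv_mem_S (s2 h)
  have s4 : X4 ⊆ S n := by
    rintro _ ⟨σ, h, rfl⟩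
    exact e4_mem hn h
  -- cardinalities
  have c2 : X2.ncard = (S (n - 3)).ncard := (e2_inj hn3).ncard_image
  have c3 : X3.ncard = (S (n - 3)).ncard := by
    rw [← c2]
    exact Set.ncard_image_of_injective _ inv_injective
  have c4 : X4.ncard = (S (n - 6)).ncard := (e4_inj hn).ncard_image
  have sI : I (n - 1) ⊆ I n := fun π h => ⟨h.1.mono (by omega), h.2⟩
  have c1 : X1.ncard + (I (n - 1)).ncard = (I n).ncard :=
    Set.ncard_sdiff_add_ncard_of_subset sI (finI n)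
  have f0 : X0.Finite := (finS n).subset s0
  have f1 : X1.Finite := (finS n).subset s1
  have f2 : X2.Finite := (finS n).subset s2
  have f3 : X3.Finite := (finS n).subset s3
  have f4 : X4.Finite := (finS n).subset s4
  have d34 : Disjoint X3 X4 := by
    rw [Set.disjoint_left]
    intro π h h'
    have := k3 π h
    have := k4 π h'
    omega
  have d2 : Disjoint X2 (X3 ∪ X4) := by
    rw [Set.disjoint_left]
    rintro π h (h' | h')
    · have := k2 π h
      have := k3 π h'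
      omega
    · have := k2 π h
      have := k4 π h'
      omega
  have d1 : Disjoint X1 (X2 ∪ (X3 ∪ X4)) := by
    rw [Set.disjoint_left]
    rintro π h (h' | h' | h')
    · have := k1 π h
      have := k2 π h'
      omega
    · have := k1 π h
      have := k3 π h'
      omega
    · have := k1 π h
      have := k4 π h'
      omega
  have d0 : Disjoint X0 (X1 ∪ (X2 ∪ (X3 ∪ X4))) := by
    rw [Set.disjoint_left]
    rintro π h (h' | h' | h' | h')
    · exact (k1 π h').1 (k0 π h)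
    · have := k0 π h
      have := k2 π h'
      omega
    · have := k0 π h
      have := k3 π h'
      omega
    · have := k0 π h
      have := k4 π h'
      omega
  have hsub : X0 ∪ (X1 ∪ (X2 ∪ (X3 ∪ X4))) ⊆ S n :=
    Set.union_subset s0 (Set.union_subset s1 (Set.union_subset s2 (Set.union_subset s3 s4)))
  have hc := Set.ncard_le_ncard hsub (finS n)
  rw [Set.ncard_union_eq d0 f0 (f1.union (f2.union (f3.union f4))),
    Set.ncard_union_eq d1 f1 (f2.union (f3.union f4)),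
    Set.ncard_union_eq d2 f2 (f3.union f4), Set.ncard_union_eq d34 f3 f4, c2, c3, c4] at hc
  omega

end Q165.DA.Fam

namespace Q165.DA

theorem fam : S_Fam := Fam.fam

end Q165.DA
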