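import Pool.Agent.Q165.DA.Stm

/-!
# Project DA, job FAM: a lower bound for the number of strongly 132-avoiding permutations
-/

namespace Q165.DA.Fam
open Equiv

/-- one-line notation `(n-2, σ+1, n-1, 0)`. -/
def f2 (n : ℕ) (σ : Perm ℕ) (x : ℕ) : ℕ :=
  if x = 0 then n - 2 else if x < n - 2 then σ (x - 1) + 1 else if x = n - 2 then n - 1
  else if x = n - 1 then 0 else x

/-- one-line notation `(n-1, σ+1, 0, n-2)`. -/
def g2 (n : ℕ) (σ : Perm ℕ) (x : ℕ) : ℕ :=
  if x = 0 then n - 1 else if x < n - 2 then σ (x - 1) + 1 else if x = n - 2 then 0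
  else if x = n - 1 then n - 2 else x

/-- one-line notation `(n-4, n-3, σ+2, n-2, n-1, 0, 1)`. -/
def f4 (n : ℕ) (σ : Perm ℕ) (x : ℕ) : ℕ :=
  if x = 0 then n - 4 else if x = 1 then n - 3 else if x < n - 4 then σ (x - 2) + 2
  else if x = n - 4 then n - 2 else if x = n - 3 then n - 1 else if x = n - 2 then 0
  else if x = n - 1 then 1 else x

/-- one-line notation `(n-2, n-1, σ+2, 0, 1, n-4, n-3)`. -/
def g4 (n : ℕ) (σ : Perm ℕ) (x : ℕ) : ℕ :=
  if x = 0 then n - 2 else if x = 1 then n - 1 else if x < n - 4 then σ (x - 2) + 2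
  else if x = n - 4 then 0 else if x = n - 3 then 1 else if x = n - 2 then n - 4
  else if x = n - 1 then n - 3 else x

theorem g2f2 {n : ℕ} (hn : 3 ≤ n) {σ : Perm ℕ} (hs : Supp (n - 3) σ) (x : ℕ) :
    g2 n σ⁻¹ (f2 n σ x) = x := by
  have hb : x - 1 < n - 3 → σ (x - 1) < n - 3 := (hs.lt_iff _).2
  have hi : σ⁻¹ (σ (x - 1)) = x - 1 := by simp
  unfold f2
  split_ifs with h1 h2 h3 h4
  · unfold g2
    rw [if_neg (by omega), if_neg (by omega), if_pos rfl, h1]
  · unfold g2
    have := hb (by omega)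
    rw [if_neg (by omega), if_pos (by omega), Nat.add_sub_cancel, hi]
    omega
  · unfold g2
    rw [if_neg (by omega), if_neg (by omega), if_neg (by omega), if_pos rfl, h3]
  · unfold g2
    rw [if_pos rfl, h4]
  · unfold g2
    rw [if_neg (by omega), if_neg (by omega), if_neg (by omega), if_neg (by omega)]

theorem f2g2 {n : ℕ} (hn : 3 ≤ n) {σ : Perm ℕ} (hs : Supp (n - 3) σ) (x : ℕ) :
    f2 n σ (g2 n σ⁻¹ x) = x := by
  have hb : x - 1 < n - 3 → σ⁻¹ (x - 1) < n - 3 := (hs.inv.lt_iff _).2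
  have hi : σ (σ⁻¹ (x - 1)) = x - 1 := by simp
  unfold g2
  split_ifs with h1 h2 h3 h4
  · unfold f2
    rw [if_neg (by omega), if_neg (by omega), if_neg (by omega), if_pos rfl, h1]
  · unfold f2
    have := hb (by omega)
    rw [if_neg (by omega), if_pos (by omega), Nat.add_sub_cancel, hi]
    omega
  · unfold f2
    rw [if_pos rfl, h3]
  · unfold f2
    rw [if_neg (by omega), if_neg (by omega), if_pos rfl, h4]
  · unfold f2
    rw [if_neg (by omega), if_neg (by omega), if_neg (by omega), if_neg (by omega)]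

theorem f2f2 {n : ℕ} (hn : 3 ≤ n) {σ : Perm ℕ} (hs : Supp (n - 3) σ) (x : ℕ) :
    f2 n σ (f2 n σ x) = g2 n (σ * σ) x := by
  have hb : x - 1 < n - 3 → σ (x - 1) < n - 3 := (hs.lt_iff _).2
  conv_lhs => rw [f2.eq_1 n σ x]
  unfold g2
  split_ifs with h1 h2 h3 h4
  · unfold f2
    rw [if_neg (by omega), if_neg (by omega), if_pos rfl]
  · unfold f2
    have := hb (by omega)
    rw [if_neg (by omega), if_pos (by omega), Nat.add_sub_cancel]
    rfl
  · unfold f2
    rw [if_neg (by omega), if_neg (by omega), if_neg (by omega), if_pos rfl]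
  · unfold f2
    rw [if_pos rfl]
  · unfold f2
    rw [if_neg (by omega), if_neg (by omega), if_neg (by omega), if_neg (by omega)]

/-- a permutation of `ℕ` from a function and its inverse. -/
def p2 (n : ℕ) (hn : 3 ≤ n) (σ : Perm ℕ) (hs : Supp (n - 3) σ) : Perm ℕ where
  toFun := f2 n σ
  invFun := g2 n σ⁻¹
  left_inv := g2f2 hn hs
  right_inv := f2g2 hn hs

theorem supp_p2 {n : ℕ} (hn : 3 ≤ n) {σ : Perm ℕ} (hs : Supp (n - 3) σ) :
    Supp n (p2 n hn σ hs) := by
  intro k hk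
  change f2 n σ k = k
  unfold f2
  rw [if_neg (by omega), if_neg (by omega), if_neg (by omega), if_neg (by omega)]

theorem av_of_lt {n : ℕ} {π : Perm ℕ} (hs : Supp n π)
    (h : ∀ i j k, i < j → j < k → k < n → π i < π k → π k < π j → False) : Av π := by
  intro i j k hij hjk h1 h2
  rcases Nat.lt_or_ge k n with hk | hk
  · exact h i j k hij hjk hk h1 h2
  · rw [hs k hk] at h2
    rcases Nat.lt_or_ge j n with hj | hj
    · have := (hs.lt_iff j).2 hj
      omega
    · rw [hs j hj] at h2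
      omega

theorem av_p2 {n : ℕ} (hn : 3 ≤ n) {σ : Perm ℕ} (hs : Supp (n - 3) σ) (ha : Av σ) :
    Av (p2 n hn σ hs) := by
  apply av_of_lt (supp_p2 hn hs)
  intro i j k hij hjk hk h1 h2
  change f2 n σ i < f2 n σ k at h1
  change f2 n σ k < f2 n σ j at h2
  have hbi : i - 1 < n - 3 → σ (i - 1) < n - 3 := (hs.lt_iff _).2
  have hbj : j - 1 < n - 3 → σ (j - 1) < n - 3 := (hs.lt_iff _).2
  have hbk : k - 1 < n - 3 → σ (k - 1) < n - 3 := (hs.lt_iff _).2
  unfold f2 at h1 h2
  by_cases hm : i ≠ 0 ∧ k < n - 2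
  · rw [if_neg (by omega), if_pos (by omega), if_neg (by omega), if_pos (by omega)] at h1
    rw [if_neg (by omega), if_pos (by omega), if_neg (by omega), if_pos (by omega)] at h2
    exact ha (i - 1) (j - 1) (k - 1) (by omega) (by omega) (by omega) (by omega)
  · split_ifs at h1 h2 <;> omega

theorem av_p2sq {n : ℕ} (hn : 3 ≤ n) {σ : Perm ℕ} (hs : Supp (n - 3) σ) (ha : Av (σ * σ)) :
    Av (p2 n hn σ hs * p2 n hn σ hs) := by
  apply av_of_lt ((supp_p2 hn hs).mul (supp_p2 hn hs))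
  intro i j k hij hjk hk h1 h2
  change f2 n σ (f2 n σ i) < f2 n σ (f2 n σ k) at h1
  change f2 n σ (f2 n σ k) < f2 n σ (f2 n σ j) at h2
  rw [f2f2 hn hs, f2f2 hn hs] at h1 h2
  have hs2 := hs.mul hs
  have hbi : i - 1 < n - 3 → (σ * σ) (i - 1) < n - 3 := (hs2.lt_iff _).2
  have hbj : j - 1 < n - 3 → (σ * σ) (j - 1) < n - 3 := (hs2.lt_iff _).2
  have hbk : k - 1 < n - 3 → (σ * σ) (k - 1) < n - 3 := (hs2.lt_iff _).2
  unfold g2 at h1 h2
  by_cases hm : i ≠ 0 ∧ k < n - 2
  · rw [if_neg (by omega), if_pos (by omega), if_neg (by omega), if_pos (by omega)] at h1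
    rw [if_neg (by omega), if_pos (by omega), if_neg (by omega), if_pos (by omega)] at h2
    exact ha (i - 1) (j - 1) (k - 1) (by omega) (by omega) (by omega) (by omega)
  · split_ifs at h1 h2 <;> omega

theorem p2_inj {n : ℕ} (hn : 3 ≤ n) {σ τ : Perm ℕ} (hs : Supp (n - 3) σ) (ht : Supp (n - 3) τ)
    (h : p2 n hn σ hs = p2 n hn τ ht) : σ = τ := by
  ext x
  rcases Nat.lt_or_ge x (n - 3) with hx | hx
  · have h1 : f2 n σ (x + 1) = f2 n τ (x + 1) := DFunLike.congr_fun h (x + 1)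
    unfold f2 at h1
    rw [if_neg (by omega), if_pos (by omega), if_neg (by omega), if_pos (by omega),
      Nat.add_sub_cancel] at h1
    omega
  · rw [hs x hx, ht x hx]

theorem g4f4 {n : ℕ} (hn : 6 ≤ n) {σ : Perm ℕ} (hs : Supp (n - 6) σ) (x : ℕ) :
    (if f4 n σ x = 0 then n - 2 else if f4 n σ x = 1 then n - 1
      else if f4 n σ x < n - 4 then σ⁻¹ (f4 n σ x - 2) + 2
      else if f4 n σ x = n - 4 then 0 else if f4 n σ x = n - 3 then 1
      else if f4 n σ x = n - 2 then n - 4 else if f4 n σ x = n - 1 then n - 3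
      else f4 n σ x) = x := by
  have hb : x - 2 < n - 6 → σ (x - 2) < n - 6 := (hs.lt_iff _).2
  have hi : σ⁻¹ (σ (x - 2)) = x - 2 := by simp
  have key : ∀ y, f4 n σ x = y → (if y = 0 then n - 2 else if y = 1 then n - 1
      else if y < n - 4 then σ⁻¹ (y - 2) + 2
      else if y = n - 4 then 0 else if y = n - 3 then 1
      else if y = n - 2 then n - 4 else if y = n - 1 then n - 3
      else y) = x := by
    intro y hy
    unfold f4 at hy
    by_cases hm : x ≠ 0 ∧ x ≠ 1 ∧ x < n - 4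
    · have := hb (by omega)
      rw [if_neg (by omega), if_neg (by omega), if_pos (by omega)] at hy
      rw [if_neg (by omega), if_neg (by omega), if_pos (by omega), ← hy, Nat.add_sub_cancel, hi]
      omega
    · split_ifs at hy <;> split_ifs <;> omega
  exact key _ rfl

theorem f4g4 {n : ℕ} (hn : 6 ≤ n) {σ : Perm ℕ} (hs : Supp (n - 6) σ) (x : ℕ) :
    f4 n σ (g4 n σ⁻¹ x) = x := by
  have hb : x - 2 < n - 6 → σ⁻¹ (x - 2) < n - 6 := (hs.inv.lt_iff _).2
  have hi : σ (σ⁻¹ (x - 2)) = x - 2 := by simp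
  have key : ∀ y, g4 n σ⁻¹ x = y → f4 n σ y = x := by
    intro y hy
    unfold g4 at hy
    unfold f4
    by_cases hm : x ≠ 0 ∧ x ≠ 1 ∧ x < n - 4
    · have := hb (by omega)
      rw [if_neg (by omega), if_neg (by omega), if_pos (by omega)] at hy
      rw [if_neg (by omega), if_neg (by omega), if_pos (by omega), ← hy, Nat.add_sub_cancel, hi]
      omega
    · split_ifs at hy <;> split_ifs <;> omega
  exact key _ rfl

theorem f4f4 {n : ℕ} (hn : 6 ≤ n) {σ : Perm ℕ} (hs : Supp (n - 6) σ) (x : ℕ) :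
    f4 n σ (f4 n σ x) = g4 n (σ * σ) x := by
  have hb : x - 2 < n - 6 → σ (x - 2) < n - 6 := (hs.lt_iff _).2
  have key : ∀ y, f4 n σ x = y → f4 n σ y = g4 n (σ * σ) x := by
    intro y hy
    unfold f4 at hy
    unfold f4 g4
    by_cases hm : x ≠ 0 ∧ x ≠ 1 ∧ x < n - 4
    · have := hb (by omega)
      rw [if_neg (by omega), if_neg (by omega), if_pos (by omega)] at hy
      rw [if_neg (by omega), if_neg (by omega), if_pos (by omega), ← hy, Nat.add_sub_cancel,
        if_neg (by omega), if_neg (by omega), if_pos (by omega)]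
      rfl
    · split_ifs at hy <;> split_ifs <;> omega
  exact key _ rfl

/-- a permutation of `ℕ` from a function and its inverse. -/
def p4 (n : ℕ) (hn : 6 ≤ n) (σ : Perm ℕ) (hs : Supp (n - 6) σ) : Perm ℕ where
  toFun := f4 n σ
  invFun := g4 n σ⁻¹
  left_inv := g4f4 hn hs
  right_inv := f4g4 hn hs

theorem supp_p4 {n : ℕ} (hn : 6 ≤ n) {σ : Perm ℕ} (hs : Supp (n - 6) σ) :
    Supp n (p4 n hn σ hs) := by
  intro k hk
  change f4 n σ k = k
  unfold f4
  split_ifs <;> omega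

theorem av_p4 {n : ℕ} (hn : 6 ≤ n) {σ : Perm ℕ} (hs : Supp (n - 6) σ) (ha : Av σ) :
    Av (p4 n hn σ hs) := by
  apply av_of_lt (supp_p4 hn hs)
  intro i j k hij hjk hk h1 h2
  change f4 n σ i < f4 n σ k at h1
  change f4 n σ k < f4 n σ j at h2
  have hbi : i - 2 < n - 6 → σ (i - 2) < n - 6 := (hs.lt_iff _).2
  have hbj : j - 2 < n - 6 → σ (j - 2) < n - 6 := (hs.lt_iff _).2
  have hbk : k - 2 < n - 6 → σ (k - 2) < n - 6 := (hs.lt_iff _).2
  unfold f4 at h1 h2
  by_cases hm : 1 < i ∧ k < n - 4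
  · rw [if_neg (by omega), if_neg (by omega), if_pos (by omega), if_neg (by omega),
      if_neg (by omega), if_pos (by omega)] at h1
    rw [if_neg (by omega), if_neg (by omega), if_pos (by omega), if_neg (by omega),
      if_neg (by omega), if_pos (by omega)] at h2
    exact ha (i - 2) (j - 2) (k - 2) (by omega) (by omega) (by omega) (by omega)
  · split_ifs at h1 h2 <;> omega

theorem av_p4sq {n : ℕ} (hn : 6 ≤ n) {σ : Perm ℕ} (hs : Supp (n - 6) σ) (ha : Av (σ * σ)) :
    Av (p4 n hn σ hs * p4 n hn σ hs) := by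
  apply av_of_lt ((supp_p4 hn hs).mul (supp_p4 hn hs))
  intro i j k hij hjk hk h1 h2
  change f4 n σ (f4 n σ i) < f4 n σ (f4 n σ k) at h1
  change f4 n σ (f4 n σ k) < f4 n σ (f4 n σ j) at h2
  rw [f4f4 hn hs, f4f4 hn hs] at h1 h2
  have hs2 := hs.mul hs
  have hbi : i - 2 < n - 6 → (σ * σ) (i - 2) < n - 6 := (hs2.lt_iff _).2
  have hbj : j - 2 < n - 6 → (σ * σ) (j - 2) < n - 6 := (hs2.lt_iff _).2
  have hbk : k - 2 < n - 6 → (σ * σ) (k - 2) < n - 6 := (hs2.lt_iff _).2
  unfold g4 at h1 h2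
  by_cases hm : 1 < i ∧ k < n - 4
  · rw [if_neg (by omega), if_neg (by omega), if_pos (by omega), if_neg (by omega),
      if_neg (by omega), if_pos (by omega)] at h1
    rw [if_neg (by omega), if_neg (by omega), if_pos (by omega), if_neg (by omega),
      if_neg (by omega), if_pos (by omega)] at h2
    exact ha (i - 2) (j - 2) (k - 2) (by omega) (by omega) (by omega) (by omega)
  · split_ifs at h1 h2 <;> omega

theorem p4_inj {n : ℕ} (hn : 6 ≤ n) {σ τ : Perm ℕ} (hs : Supp (n - 6) σ) (ht : Supp (n - 6) τ)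
    (h : p4 n hn σ hs = p4 n hn τ ht) : σ = τ := by
  ext x
  rcases Nat.lt_or_ge x (n - 6) with hx | hx
  · have h1 : f4 n σ (x + 2) = f4 n τ (x + 2) := DFunLike.congr_fun h (x + 2)
    unfold f4 at h1
    rw [if_neg (by omega), if_neg (by omega), if_pos (by omega), if_neg (by omega),
      if_neg (by omega), if_pos (by omega), Nat.add_sub_cancel] at h1
    omega
  · rw [hs x hx, ht x hx]

end Q165.DA.Fam
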