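import Pool.Agent.Q165.DA.Stm

/-!
# Project DA, job ZB: the main structure lemma
-/

namespace Q165.DA.ZB
open Equiv

theorem mono_eq {g : ℕ → ℕ} {a b L : ℕ} (hm : ∀ i j, i < j → j < L → g (a + i) < g (a + j))
    (hlo : ∀ i, i < L → b ≤ g (a + i)) (hhi : ∀ i, i < L → g (a + i) < b + L) :
    ∀ i, i < L → g (a + i) = b + i := by
  have step : ∀ j i, i + j < L → g (a + i) + j ≤ g (a + (i + j)) := by
    intro j
    induction j with
    | zero => intro i _; simp
    | succ j ih =>
      intro i hij
      have h1 := ih i (by omega)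
      have h2 := hm (i + j) (i + (j + 1)) (by omega) hij
      omega
  intro i hi
  have h1 := step i 0 (by omega)
  have h2 := step (L - 1 - i) i (by omega)
  have h3 := hlo 0 (by omega)
  have h4 := hhi (L - 1) (by omega)
  have e1 : i + (L - 1 - i) = L - 1 := by omega
  rw [e1] at h2
  rw [zero_add] at h1
  omega

theorem mono_ge {g : ℕ → ℕ} {a b L : ℕ} (hm : ∀ i j, i < j → j < L → g (a + i) < g (a + j))
    (hlo : ∀ i, i < L → b ≤ g (a + i)) : ∀ i, i < L → b + i ≤ g (a + i) := by
  intro i
  induction i with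
  | zero => intro hi; simpa using hlo 0 hi
  | succ i ih =>
    intro hi
    have h1 := ih (by omega)
    have h2 := hm i (i + 1) (by omega) hi
    omega

theorem down_eq {N q : ℕ} {P : ℕ → Prop} [DecidablePred P]
    (hd : ∀ p p', p < p' → p' < N → P p' → P p)
    (hc : ((Finset.range N).filter P).card = q) : ∀ p, p < N → (P p ↔ p < q) := by
  set B := (Finset.range N).filter P with hB
  have hBr : B = Finset.range q := by
    symm
    apply Finset.eq_of_subset_of_card_le
    · intro p hp
      rw [Finset.mem_range] at hp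
      by_contra hpB
      have hsub : B ⊆ Finset.range p := by
        intro x hx
        rw [Finset.mem_range]
        by_contra hxp
        simp only [hB, Finset.mem_filter, Finset.mem_range] at hx hpB
        rcases Nat.lt_or_ge p x with h1 | h1
        · exact hpB ⟨by omega, hd p x h1 hx.1 hx.2⟩
        · have : x = p := by omega
          rw [this] at hx
          exact hpB hx
      have := Finset.card_le_card hsub
      rw [Finset.card_range] at this
      omega
    · rw [hc, Finset.card_range]
  intro p hp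
  have hm : p ∈ B ↔ p < q := by rw [hBr, Finset.mem_range]
  simp only [hB, Finset.mem_filter, Finset.mem_range] at hm
  constructor
  · intro h
    exact hm.1 ⟨hp, h⟩
  · intro h
    exact (hm.2 h).2

theorem count {n : ℕ} {g : Perm ℕ} (hs : Supp n g) (v : ℕ) :
    ((Finset.range n).filter (fun p => v < g p)).card = n - 1 - v := by
  have h1 : ((Finset.range n).filter (fun p => v < g p)).image g = Finset.Ioo v n := by
    ext x
    simp only [Finset.mem_image, Finset.mem_filter, Finset.mem_range, Finset.mem_Ioo]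
    constructor
    · rintro ⟨a, ⟨ha, ha'⟩, rfl⟩
      exact ⟨ha', (hs.lt_iff _).2 ha⟩
    · rintro ⟨h1, h2⟩
      refine ⟨g⁻¹ x, ⟨(hs.inv.lt_iff _).2 h2, ?_⟩, by simp⟩
      simpa using h1
  have h2 := Finset.card_image_of_injective ((Finset.range n).filter (fun p => v < g p))
    g.injective
  rw [h1, Nat.card_Ioo] at h2
  omega

/-- the data of the situation. -/
structure Dat (n e r b0 : ℕ) (f : Perm ℕ) : Prop where
  hs : Supp n f
  ha : Av f
  ha2 : ∀ i j k, i < j → j < k → f (f i) < f (f k) → f (f k) < f (f j) → False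
  hn : n = e + r + 1
  hr1 : 1 ≤ r
  hre : r ≤ e
  hfe : f e = e + r
  hk : f (e + r) < e
  hmax : ∀ p, p < n → (e < p ↔ f p < r)
  hinc : ∀ c c', e < c → c < c' → c' < n → f (f c) < f (f c')
  hb0 : f (f (e + 1)) = b0

variable {n e r b0 : ℕ} {f : Perm ℕ}

theorem Dat.lt (D : Dat n e r b0 f) {p : ℕ} (hp : p < n) : f p < n := (D.hs.lt_iff p).2 hp

theorem Dat.ge_r (D : Dat n e r b0 f) {p : ℕ} (hp : p ≤ e) : r ≤ f p := by
  by_contra hc
  have := D.hn
  have := (D.hmax p (by omega)).2 (by omega)
  omega

theorem Dat.pre (D : Dat n e r b0 f) {v : ℕ} (hv : r ≤ v) (hvn : v < n) :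
    ∃ p, p ≤ e ∧ f p = v := by
  have h1 : f (f⁻¹ v) = v := f.apply_symm_apply v
  have h2 : f⁻¹ v < n := (D.hs.inv.lt_iff _).2 hvn
  refine ⟨f⁻¹ v, ?_, h1⟩
  by_contra hc
  have := (D.hmax _ h2).1 (by omega)
  omega

theorem Dat.preC (D : Dat n e r b0 f) {v : ℕ} (hv : v < r) :
    ∃ c, e < c ∧ c < n ∧ f c = v := by
  have h1 : f (f⁻¹ v) = v := f.apply_symm_apply v
  have := D.hn
  have h2 : f⁻¹ v < n := (D.hs.inv.lt_iff _).2 (by omega)
  exact ⟨f⁻¹ v, (D.hmax _ h2).2 (by omega), h2, h1⟩

theorem Dat.a0 (D : Dat n e r b0 f) : f (e + 1) < r := by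
  have := D.hn
  have := D.hr1
  exact (D.hmax _ (by omega)).1 (by omega)

theorem Dat.b0_ge (D : Dat n e r b0 f) : r ≤ b0 := by
  rw [← D.hb0]
  apply D.ge_r
  have := D.a0
  have := D.hre
  omega

theorem Dat.b0_lt (D : Dat n e r b0 f) : b0 < e + r := by
  have h1 : b0 < n := by
    rw [← D.hb0]
    apply D.lt
    apply D.lt
    have := D.hn
    have := D.hr1
    omega
  have h2 : b0 ≠ e + r := by
    intro h
    rw [← D.hb0, ← D.hfe] at h
    have h3 := f.injective h
    have := D.a0
    have := D.hre
    omega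
  have := D.hn
  omega

theorem Dat.bmin (D : Dat n e r b0 f) {p : ℕ} (hp : p < r) : b0 ≤ f p := by
  obtain ⟨c, hc, hcn, rfl⟩ := D.preC hp
  rcases Nat.lt_or_ge (e + 1) c with h | h
  · have := D.hinc (e + 1) c (by omega) h hcn
    rw [D.hb0] at this
    omega
  · have : c = e + 1 := by omega
    rw [this, D.hb0]

theorem Dat.bmax (D : Dat n e r b0 f) {p : ℕ} (hp : p < r) : f p ≤ f (f (e + r)) := by
  obtain ⟨c, hc, hcn, rfl⟩ := D.preC hp
  have := D.hn
  rcases Nat.lt_or_ge c (e + r) with h | h
  · exact (D.hinc c (e + r) (by omega) h (by omega)).le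
  · have : c = e + r := by omega
    rw [this]

theorem Dat.ne_b0 (D : Dat n e r b0 f) {p : ℕ} (hp : r ≤ p) : f p ≠ b0 := by
  intro h
  rw [← D.hb0] at h
  have := f.injective h
  have := D.a0
  omega

theorem Dat.F2 (D : Dat n e r b0 f) {p p' : ℕ} (hp : r ≤ p) (hpp : p < p')
    (h1 : b0 < f p') : f p < f p' := by
  by_contra hc
  have hne : f p ≠ f p' := fun h => by have := f.injective h; omega
  have := D.a0
  refine D.ha (f (e + 1)) p p' (by omega) hpp ?_ (by omega)
  rw [D.hb0]
  exact h1

theorem Dat.F4 (D : Dat n e r b0 f) {p : ℕ} (hp : p ≤ e) :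
    b0 < f (f p) ↔ p < n - r - b0 := by
  have hn := D.hn
  have hr1 := D.hr1
  refine down_eq (N := e + 1) (P := fun p => b0 < f (f p)) ?_ ?_ p (by omega)
  · intro p p' hpp hp' h
    by_contra hc
    rw [not_lt] at hc
    have hne : f (f p) ≠ b0 := by
      rw [← D.hb0]
      intro h
      have := f.injective (f.injective h)
      omega
    refine D.ha2 p p' (e + 1) hpp (by omega) ?_ ?_
    · rw [D.hb0]
      omega
    · rw [D.hb0]
      exact h
  · have h1 := count (D.hs.mul D.hs) b0
    have h2 : (Finset.range n).filter (fun p => b0 < (f * f) p) =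
        (Finset.range (e + 1)).filter (fun p => b0 < f (f p)) ∪ Finset.Ioo (e + 1) n := by
      ext x
      simp only [Finset.mem_filter, Finset.mem_range, Finset.mem_union, Finset.mem_Ioo,
        Perm.mul_apply]
      constructor
      · rintro ⟨h1, h2⟩
        rcases Nat.lt_or_ge x (e + 1) with h | h
        · left
          exact ⟨h, h2⟩
        · right
          refine ⟨?_, h1⟩
          rcases Nat.lt_or_ge (e + 1) x with h' | h'
          · exact h'
          · have : x = e + 1 := by omega
            rw [this, D.hb0] at h2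
            omega
      · rintro (⟨h1, h2⟩ | ⟨h1, h2⟩)
        · exact ⟨by omega, h2⟩
        · refine ⟨h2, ?_⟩
          have := D.hinc (e + 1) x (by omega) h1 h2
          rw [D.hb0] at this
          exact this
    rw [h2, Finset.card_union_of_disjoint, Nat.card_Ioo] at h1
    · have := D.b0_lt
      have h3 : ((Finset.range (e + 1)).filter (fun p => b0 < f (f p))).card =
        n - 1 - b0 - (n - (e + 1) - 1) := by omega
      rw [h3]
      omega
    · rw [Finset.disjoint_left]
      intro x hx hx'
      simp only [Finset.mem_filter, Finset.mem_range, Finset.mem_Ioo] at hx hx'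
      omega

/-- (F4): for `p ≤ e`, `p < q` iff `f p ≤ e` and `f p` is of V-type. -/
theorem Dat.F4' (D : Dat n e r b0 f) {p : ℕ} (hp : p ≤ e) (hq : p < n - r - b0) : f p ≤ e := by
  by_contra hc
  have hn := D.hn
  have h1 := (D.hmax (f p) (D.lt (by omega))).1 (by omega)
  have h2 := (D.F4 hp).2 hq
  have := D.b0_ge
  omega

theorem Dat.fin (D : Dat n e r b0 f) (h : ∀ p, r ≤ p → p ≤ e → f p = p + r) (i : ℕ) (hi : i < r) :
    f (f (n - r + i)) = r + i := by
  have hn := D.hn
  have hre := D.hre
  have hB : ∀ p, p < r → r ≤ f p ∧ f p < r + r := by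
    intro p hp
    refine ⟨D.ge_r (by omega), ?_⟩
    by_contra hc
    have h1 := D.lt (p := p) (by omega)
    have h2 := h (f p - r) (by omega) (by omega)
    have e1 : f p - r + r = f p := by omega
    rw [e1] at h2
    have := f.injective h2
    omega
  refine mono_eq (g := fun x => f (f x)) (a := n - r) (b := r) (L := r) ?_ ?_ ?_ i hi
  · intro i j hij hj
    exact D.hinc _ _ (by omega) (by omega) (by omega)
  · intro i hi
    exact (hB _ ((D.hmax _ (by omega)).1 (by omega))).1
  · intro i hi
    exact (hB _ ((D.hmax _ (by omega)).1 (by omega))).2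

/-- Case 1, `b0 = r`. -/
theorem Dat.case1 (D : Dat n e r b0 f) (hq : n - r - b0 < r) : b0 = r := by
  have hn := D.hn
  have hre := D.hre
  have hr1 := D.hr1
  have hb0 := D.b0_ge
  have hb0' := D.b0_lt
  by_contra hne
  have hlt : r < b0 := by omega
  -- V-type positions are at least `b0`
  have hV : ∀ v, r ≤ v → v ≤ e → b0 < f v → b0 ≤ v := by
    intro v hv hve hf
    obtain ⟨p, hp, rfl⟩ := D.pre hv (by omega)
    have := (D.F4 hp).1 hf
    exact D.bmin (by omega)
  have hbe : b0 ≤ e := hV e hre le_rfl (by rw [D.hfe]; exact hb0')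
  have hW : ∀ v, r ≤ v → v < b0 → r ≤ f v ∧ f v < b0 := by
    intro v hv hvb
    refine ⟨D.ge_r (by omega), ?_⟩
    have h1 := D.ne_b0 hv
    by_contra hc
    have := hV v hv (by omega) (by omega)
    omega
  -- `f` maps `[r, b0)` onto itself
  have hWs : ∀ v, r ≤ v → v < b0 → ∃ u, r ≤ u ∧ u < b0 ∧ f u = v := by
    have him : (Finset.Ico r b0).image f = Finset.Ico r b0 := by
      apply Finset.eq_of_subset_of_card_le
      · intro z hz
        obtain ⟨k, hk, rfl⟩ := Finset.mem_image.1 hz
        rw [Finset.mem_Ico] at hk ⊢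
        exact hW k hk.1 hk.2
      · rw [Finset.card_image_of_injective _ f.injective]
    intro v hv hvb
    have : v ∈ (Finset.Ico r b0).image f := by
      rw [him, Finset.mem_Ico]
      exact ⟨hv, hvb⟩
    obtain ⟨u, hu, rfl⟩ := Finset.mem_image.1 this
    rw [Finset.mem_Ico] at hu
    exact ⟨u, hu.1, hu.2, rfl⟩
  have hV2 : ∀ v, b0 ≤ v → v ≤ e → b0 < f v := by
    intro v hv hve
    have h1 := D.ge_r hve
    have h2 := D.ne_b0 (p := v) (by omega)
    by_contra hc
    obtain ⟨u, hu, hub, huv⟩ := hWs (f v) h1 (by omega)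
    have := f.injective huv
    omega
  -- for `q ≤ p < r`: `f p > e`
  have hC : ∀ p, n - r - b0 ≤ p → p < r → e < f p := by
    intro p hp hpr
    by_contra hc
    have h1 := D.bmin hpr
    have h2 := hV2 (f p) h1 (by omega)
    have := (D.F4 (p := p) (by omega)).1 h2
    omega
  have hC2 : ∀ p, n - r - b0 ≤ p → p < r → f (f p) < r := fun p hp hpr =>
    (D.hmax _ (D.lt (by omega))).1 (hC p hp hpr)
  have hk0 : f (e + r) < r := (D.hmax _ (by omega)).1 (by omega)
  have hk : n - r - b0 ≤ f (e + r) := by
    by_contra hc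
    have h1 := D.F4' (p := f (e + r)) (by omega) (by omega)
    have h2 := hC (n - r - b0) le_rfl hq
    have h3 := D.bmax hq
    omega
  -- pigeonhole
  have hex : ∃ p, n - r - b0 ≤ p ∧ p < r ∧ f (f p) < f (e + r) := by
    by_contra hc
    push Not at hc
    have hsub : (Finset.Ico (n - r - b0) r).image (fun p => f (f p)) ⊆
        Finset.Ioo (f (e + r)) r := by
      intro z hz
      obtain ⟨p, hp, rfl⟩ := Finset.mem_image.1 hz
      rw [Finset.mem_Ico] at hp
      rw [Finset.mem_Ioo]
      refine ⟨?_, hC2 p hp.1 hp.2⟩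
      have h1 := hc p hp.1 hp.2
      have h2 : f (f p) ≠ f (e + r) := by
        intro h
        have h3 := f.injective h
        rw [← D.hfe] at h3
        have := f.injective h3
        omega
      omega
    have h1 := Finset.card_le_card hsub
    rw [Finset.card_image_of_injective _ (fun a b h => f.injective (f.injective h)),
      Nat.card_Ico, Nat.card_Ioo] at h1
    omega
  obtain ⟨p, hp, hpr, hfp⟩ := hex
  have h1 := hW r le_rfl hlt
  have h2 := hW (f r) h1.1 h1.2
  refine D.ha2 p r e hpr (by omega) ?_ ?_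
  · rw [D.hfe]
    exact hfp
  · rw [D.hfe]
    omega

theorem Dat.case1' (D : Dat n e r b0 f) (hq : n - r - b0 < r) (p : ℕ)
    (hp : n - 2 * r ≤ p) (hpe : p ≤ e) : f p = p + r := by
  have hn := D.hn
  have hre := D.hre
  have hr1 := D.hr1
  have hb := D.case1 hq
  have hV : ∀ v, r ≤ v → v ≤ e → b0 < f v := by
    intro v hv hve
    have h1 := D.ge_r hve
    have h2 := D.ne_b0 hv
    omega
  have hC : ∀ p, n - 2 * r ≤ p → p ≤ e → e < f p := by
    intro p hp hpe
    by_contra hc
    have h1 := hV (f p) (D.ge_r hpe) (by omega)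
    have := (D.F4 hpe).1 h1
    omega
  have hq1 : 0 < n - 2 * r := by
    obtain ⟨p, hp, hpe⟩ := D.pre hre (by omega)
    have h1 : b0 < f (f p) := by
      rw [hpe, D.hfe]
      exact D.b0_lt
    have := (D.F4 hp).1 h1
    omega
  have h0 : f 0 ≤ e := D.F4' (by omega) (by omega)
  have hL : n - 2 * r + (p - (n - 2 * r)) = p := by omega
  have := mono_eq (g := f) (a := n - 2 * r) (b := n - r) (L := r) ?_ ?_ ?_ (p - (n - 2 * r))
    (by omega)
  · rw [hL] at this
    omega
  · intro i j hij hj
    by_contra hc
    have hne : f (n - 2 * r + i) ≠ f (n - 2 * r + j) := fun h => by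
      have := f.injective h
      omega
    have h1 := hC (n - 2 * r + j) (by omega) (by omega)
    exact D.ha 0 (n - 2 * r + i) (n - 2 * r + j) (by omega) (by omega) (by omega) (by omega)
  · intro i hi
    have := hC (n - 2 * r + i) (by omega) (by omega)
    omega
  · intro i hi
    have := D.lt (p := n - 2 * r + i) (by omega)
    omega

/-- Case 2a. -/
theorem Dat.case2a (D : Dat n e r b0 f) (hq : r ≤ n - r - b0) {s : ℕ} (hs : s < r)
    (hse : f s = e) : f (f (f 0)) = 0 := by
  have hn := D.hn
  have hre := D.hre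
  have hr1 := D.hr1
  have hB : ∀ p, p < r → f p ≤ e ∧ b0 < f (f p) := by
    intro p hp
    exact ⟨D.F4' (by omega) (by omega), (D.F4 (by omega)).2 (by omega)⟩
  have hk0 : f (e + r) < r := (D.hmax _ (by omega)).1 (by omega)
  have hee : f (f (e + r)) = e := by
    have h1 := D.bmax hs
    have h2 := (hB _ hk0).1
    omega
  -- positions with `f² p > e`
  have hP : ∀ p, p < e + 1 → (e < f (f p) ↔ p < r) := by
    apply down_eq
    · intro p p' hpp hp' h
      by_contra hc
      rw [not_lt] at hc
      have hne : f (f p) ≠ e := by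
        rw [← hee]
        intro h
        have := f.injective (f.injective h)
        rw [← hee] at hp'
        omega
      refine D.ha2 p p' (e + r) hpp (by omega) ?_ ?_
      · rw [hee]
        omega
      · rw [hee]
        exact h
    · have h1 := count (D.hs.mul D.hs) e
      have h2 : (Finset.range n).filter (fun p => e < (f * f) p) =
          (Finset.range (e + 1)).filter (fun p => e < f (f p)) := by
        ext x
        simp only [Finset.mem_filter, Finset.mem_range, Perm.mul_apply]
        constructor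
        · rintro ⟨h1, h2⟩
          refine ⟨?_, h2⟩
          by_contra hc
          have h3 := (D.hmax x h1).1 (by omega)
          have := (hB _ h3).1
          omega
        · rintro ⟨h1, h2⟩
          exact ⟨by omega, h2⟩
      rw [h2] at h1
      omega
  have h3 : ∀ i, i < r → f (f (f (e + 1 + i))) = e + 1 + i := by
    refine mono_eq (g := fun x => f (f (f x))) (a := e + 1) (b := e + 1) (L := r) ?_ ?_ ?_
    · intro i j hij hj
      have h1 := D.hinc (e + 1 + i) (e + 1 + j) (by omega) (by omega) (by omega)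
      have h2 := (D.hmax (e + 1 + i) (by omega)).1 (by omega)
      have h3 := (D.hmax (e + 1 + j) (by omega)).1 (by omega)
      exact D.F2 (D.ge_r (by omega)) h1 (hB _ h3).2
    · intro i hi
      have h2 := (D.hmax (e + 1 + i) (by omega)).1 (by omega)
      exact (hP _ (by omega)).2 h2
    · intro i hi
      have := D.lt (D.lt (D.lt (p := e + 1 + i) (by omega)))
      change f (f (f (e + 1 + i))) < _
      omega
  obtain ⟨c, hc, hcn, hc0⟩ := D.preC (v := 0) (by omega)
  have h4 := h3 (c - (e + 1)) (by omega)
  have e1 : e + 1 + (c - (e + 1)) = c := by omega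
  rw [e1, hc0] at h4
  rw [h4, hc0]

/-- Case 2b. -/
theorem Dat.case2b (D : Dat n e r b0 f) (hq : r ≤ n - r - b0) {s : ℕ} (hs : r ≤ s) (hse' : s ≤ e)
    (hse : f s = e) : ∀ p, r ≤ p → p ≤ e → f p = p + r := by
  have hn := D.hn
  have hre := D.hre
  have hr1 := D.hr1
  have hbge := D.b0_ge
  have hB : ∀ p, p < r → f p ≤ e ∧ b0 < f (f p) := by
    intro p hp
    exact ⟨D.F4' (by omega) (by omega), (D.F4 (by omega)).2 (by omega)⟩
  have hbe : b0 < e := by
    have h1 := (hB _ D.a0).1
    rw [D.hb0] at h1
    have h2 := D.ne_b0 hs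
    omega
  have hsq : s < n - r - b0 := by
    rw [← D.F4 hse', hse, D.hfe]
    omega
  have hV : ∀ v, b0 < v → v ≤ e → b0 < f v := by
    intro v hv hve
    by_contra hc
    obtain ⟨p, hp, hpv⟩ := D.pre (v := v) (by omega) (by omega)
    have hpr : r ≤ p := by
      by_contra hc'
      have := (hB p (by omega)).2
      rw [hpv] at this
      exact hc this
    have hpq : n - r - b0 ≤ p := by
      by_contra hc'
      have := (D.F4 hp).2 (by omega)
      rw [hpv] at this
      exact hc this
    have := D.F2 hs (p' := p) (by omega) (by omega)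
    omega
  have hVb : b0 < f b0 := by
    have := (hB _ D.a0).2
    rwa [D.hb0] at this
  have hinv : ∀ v, r ≤ v → v < b0 → ∃ u, r ≤ u ∧ u < b0 ∧ f u = v := by
    intro v hv hvb
    obtain ⟨p, hp, hpv⟩ := D.pre (v := v) (by omega) (by omega)
    refine ⟨p, ?_, ?_, hpv⟩
    · by_contra hc
      have := D.bmin (p := p) (by omega)
      omega
    · by_contra hc
      rcases Nat.lt_or_ge b0 p with h | h
      · have := hV p h hp
        omega
      · have : p = b0 := by omega
        rw [this] at hpv
        omega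
  have hfwd : ∀ u, r ≤ u → u < b0 → r ≤ f u ∧ f u < b0 := by
    have him : (Finset.Ico r b0).image f = Finset.Ico r b0 := by
      symm
      apply Finset.eq_of_subset_of_card_le
      · intro z hz
        rw [Finset.mem_Ico] at hz
        obtain ⟨u, hu, hub, rfl⟩ := hinv z hz.1 hz.2
        exact Finset.mem_image_of_mem _ (Finset.mem_Ico.2 ⟨hu, hub⟩)
      · rw [Finset.card_image_of_injective _ f.injective]
    intro u hu hub
    have : f u ∈ (Finset.Ico r b0).image f :=
      Finset.mem_image_of_mem _ (Finset.mem_Ico.2 ⟨hu, hub⟩)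
    rw [him, Finset.mem_Ico] at this
    exact this
  have hb0 : b0 = r := by
    by_contra hne
    have h1 := hfwd r le_rfl (by omega)
    have h2 := hfwd (f r) h1.1 h1.2
    have h3 := (D.F4 (p := r) hre).2 (by omega)
    omega
  have hV' : ∀ v, r ≤ v → v ≤ e → b0 < f v := by
    intro v hv hve
    have h1 := D.ge_r hve
    have h2 := D.ne_b0 hv
    omega
  have hmono : ∀ p p', r ≤ p → p < p' → p' ≤ e → f p < f p' := fun p p' hp hpp hp' =>
    D.F2 hp hpp (hV' p' (by omega) hp')
  -- `f (q-1) = e`
  have hq1 : f (n - 2 * r - 1) = e := by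
    have h1 := D.F4' (p := n - 2 * r - 1) (by omega) (by omega)
    rcases Nat.lt_or_ge s (n - 2 * r - 1) with h | h
    · have := hmono s (n - 2 * r - 1) hs h (by omega)
      omega
    · have : s = n - 2 * r - 1 := by omega
      rw [← this, hse]
  have hge : r + (r - 1) ≤ f (f (e + 1 + (r - 1))) := by
    refine mono_ge (g := fun x => f (f x)) (a := e + 1) (b := r) (L := r) ?_ ?_ (r - 1) (by omega)
    · intro i j hij hj
      exact D.hinc _ _ (by omega) (by omega) (by omega)
    · intro i hi
      have := D.bmin ((D.hmax (e + 1 + i) (by omega)).1 (by omega))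
      change r ≤ f (f (e + 1 + i))
      omega
  have e1 : e + 1 + (r - 1) = e + r := by omega
  rw [e1] at hge
  have hlo : ∀ p, r ≤ p → p ≤ e → 2 * r ≤ f p := by
    intro p hp hpe
    by_contra hc
    have h1 := hV' p hp hpe
    -- `f p = f² u`
    obtain ⟨u, hu⟩ := f.surjective p
    have huC : u ≤ e := by
      by_contra hc'
      rcases Nat.lt_or_ge u n with h2 | h2
      · have := (D.hmax u h2).1 (by omega)
        omega
      · rw [D.hs u h2] at hu
        omega
    have huq := (D.F4 huC).1 (by rw [hu]; exact h1)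
    have hune : u ≠ n - 2 * r - 1 := by
      intro h
      rw [h, hq1] at hu
      rw [← hu, D.hfe] at hc
      omega
    have hC := D.hk
    have h3 : f (f (e + r)) ≠ f p := by
      intro h
      have h4 := f.injective h
      have h5 : f (e + r) < r := (D.hmax _ (by omega)).1 (by omega)
      omega
    refine D.ha2 u (n - 2 * r - 1) (e + r) (by omega) (by omega) ?_ ?_
    · rw [hu]
      omega
    · rw [hq1, D.hfe]
      have h4 := D.lt (D.lt (p := e + r) (by omega))
      have h5 : f (f (e + r)) ≠ e + r := by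
        intro h
        have h6 : f (e + r) = e := f.injective (h.trans D.hfe.symm)
        have h7 : f (e + r) < r := (D.hmax _ (by omega)).1 (by omega)
        omega
      omega
  intro p hp hpe
  have hL : r + (p - r) = p := by omega
  have := mono_eq (g := f) (a := r) (b := 2 * r) (L := n - 2 * r) ?_ ?_ ?_ (p - r) (by omega)
  · rw [hL] at this
    omega
  · intro i j hij hj
    exact hmono _ _ (by omega) (by omega) (by omega)
  · intro i hi
    exact hlo _ (by omega) (by omega)
  · intro i hi
    have := D.lt (p := r + i) (by omega)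
    omega

theorem zb (hF : S_F01) : S_ZB := by
  intro n π h hlt
  obtain ⟨f1, f2, f3⟩ := hF n π h hlt
  obtain ⟨hs, ha, ha2⟩ := h
  have hn : 1 ≤ n := by
    by_contra hc
    have h0 : n = 0 := by omega
    have : π 0 = 0 := hs 0 (by omega)
    have h1 : π⁻¹ 0 = 0 := by rw [Perm.inv_eq_iff_eq, this]
    rw [h0, Nat.zero_sub, this, h1] at hlt
    omega
  have he : π⁻¹ (n - 1) < n := (hs.inv.lt_iff _).2 (by omega)
  have hfe : π (π⁻¹ (n - 1)) = n - 1 := π.apply_symm_apply _
  have hmax := fun p hp => Av.max hs ha p hp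
  generalize π⁻¹ (n - 1) = e at *
  obtain ⟨r, hr⟩ : ∃ r, r = n - 1 - e := ⟨_, rfl⟩
  rw [← hr] at f1 f2
  have hnr : n - 1 = e + r := by omega
  have D : Dat n e r (π (π (e + 1))) π :=
    { hs := hs
      ha := ha
      ha2 := fun i j k hij hjk h1 h2 => ha2 i j k hij hjk h1 h2
      hn := by omega
      hr1 := f1
      hre := f2
      hfe := by rw [hfe, hnr]
      hk := by rw [← hnr]; exact hlt
      hmax := fun p hp => by rw [hr]; exact hmax p hp
      hinc := f3
      hb0 := rfl }
  rcases Nat.lt_or_ge (n - r - π (π (e + 1))) r with hq | hq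
  · right
    intro r' hr'
    have : r' = r := by omega
    subst this
    have hb := D.case1 hq
    have h1 := D.case1' hq
    have h2 : ∀ p, r' ≤ p → p ≤ e → π p = p + r' := fun p hp hpe => h1 p (by omega) hpe
    refine ⟨fun p hp hpe => h1 p (by omega) hpe, D.fin h2⟩
  · obtain ⟨s, hs', hse⟩ := D.pre f2 he
    rcases Nat.lt_or_ge s r with h1 | h1
    · left
      exact D.case2a hq h1 hse
    · right
      intro r' hr'
      have : r' = r := by omega
      subst this
      have h2 := D.case2b hq h1 hs' hse
      have hbg := D.b0_ge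
      refine ⟨fun p hp hpe => h2 p (by omega) hpe, D.fin h2⟩

end Q165.DA.ZB

namespace Q165.DA

theorem zb : S_F01 → S_ZB := ZB.zb

end Q165.DA
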